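import Pool.Agent.helper71.DSW.SpecB

/-!
Row dsw:B2N (MP_a87880_co).
-/

set_option autoImplicit false

namespace Pool.Agent.DSW

open Equiv Finset Function Pool.Agent.helper48.PP
open scoped ENNReal Classical

noncomputable section

/-- the parameters of the moves of two points -/
def B2N_T {L : ℕ} (a c : Fin L → Fin (L + 1) → ℕ) (q : Fin L × Fin L × Fin L) : Finset (ℕ × ℕ × Finset ℕ) :=
  Finset.Ico (pos (a q.1) (q.2.2 : ℕ) - a q.1 q.2.2.castSucc) (pos (a q.1) (q.2.2 : ℕ)) ×ˢ
    (Finset.Ico (pos (a q.2.1) (q.2.2 : ℕ)) (pos (a q.2.1) ((q.2.2 : ℕ) + 1)) ×ˢ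
      Finset.powersetCard 2 (Finset.Ico (pos (c q.2.2) (q.2.1 : ℕ)) (pos (c q.2.2) ((q.2.1 : ℕ) + 1))))

def B2N_f {L : ℕ} (q : Fin L × Fin L × Fin L) (z : ℕ × ℕ × Finset ℕ) : Finset (Cell L) :=
  {((q.1, q.2.2), (z.1, sInf (z.2.2 : Set ℕ))), ((q.2.1, q.2.2), (z.2.1, sSup (z.2.2 : Set ℕ)))}

theorem B2N_card (hPOS : POS_stmt) {L : ℕ} (a c : Fin L → Fin (L + 1) → ℕ) (q : Fin L × Fin L × Fin L) :
    (B2N_T a c q).card ≤ n2 a c q := by
  unfold B2N_T n2
  rw [Finset.card_product, Finset.card_product, Finset.card_powersetCard, Nat.card_Ico, Nat.card_Ico, Nat.card_Ico,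
    mul_assoc]
  have h1 := (hPOS.1 L (a q.2.1)).2.1 q.2.2
  have h2 := (hPOS.1 L (c q.2.2)).2.1 q.2.1
  have e1 : pos (a q.2.1) ((q.2.2 : ℕ) + 1) - pos (a q.2.1) (q.2.2 : ℕ) = a q.2.1 q.2.2.succ + 1 := by omega
  have e2 : pos (c q.2.2) ((q.2.1 : ℕ) + 1) - pos (c q.2.2) (q.2.1 : ℕ) = c q.2.2 q.2.1.succ + 1 := by omega
  rw [e1, e2]
  exact Nat.mul_le_mul_right _ (by omega)

theorem B2N (hPOS : POS_stmt) : B2N_stmt := by
  intro L a c
  have hsub : ((Bad (len a) (len c) (arr a c)).filter fun F => F.card = 2) ⊆
      (VP L).biUnion fun q => (B2N_T a c q).image (B2N_f q) := by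
    intro F hF
    rw [Finset.mem_filter] at hF
    obtain ⟨hFB, hF2⟩ := hF
    unfold Bad at hFB
    rw [Finset.mem_filter] at hFB
    obtain ⟨-, e', ⟨hV, -, -, hcase⟩, hFe⟩ := hFB
    have hinj : Function.Injective (cellAt e') := fun u v huv => congrArg Prod.fst huv
    have hcard : (mov (arr a c) e').card = 2 := by
      rw [hFe, Finset.card_image_of_injective _ hinj] at hF2
      exact hF2
    have hA : TypeA (arr a c) e' := by
      rcases hcase with h | h | h
      · omega
      · exact h.2
      · omega
    obtain ⟨b, b', i, hbb, hmov, hx, hx', hy⟩ := hA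
    obtain ⟨hV1, hV2, hV3, hV4⟩ := hV
    have hfix : ∀ u : Fin L × Fin L, u ≠ (b, i) → u ≠ (b', i) →
        e'.1 u.1 u.2 = (arr a c).1 u.1 u.2 ∧ e'.2 u.2 u.1 = (arr a c).2 u.2 u.1 := by
      intro u h1 h2
      have h3 : u ∉ mov (arr a c) e' := by
        rw [hmov, Finset.mem_insert, Finset.mem_singleton]
        tauto
      have h4 : cellAt e' u = cellAt (arr a c) u := by
        by_contra hc
        exact h3 (Finset.mem_filter.2 ⟨Finset.mem_univ u, hc⟩)
      have h5 := congrArg Prod.snd h4
      exact ⟨congrArg Prod.fst h5, congrArg Prod.snd h5⟩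
    have hbb' : b < b' := by
      rw [Fin.lt_def]
      omega
    rw [Finset.mem_biUnion]
    refine ⟨(b, b', i), ?_, ?_⟩
    · unfold VP
      rw [Finset.mem_filter]
      exact ⟨Finset.mem_univ _, hbb⟩
    · rw [Finset.mem_image]
      refine ⟨(e'.1 b i, e'.1 b' i, {e'.2 i b, e'.2 i b'}), ?_, ?_⟩
      · unfold B2N_T
        rw [Finset.mem_product, Finset.mem_product, Finset.mem_Ico, Finset.mem_Ico, Finset.mem_powersetCard]
        have hyy : e'.2 i b < e'.2 i b' := hV2 i hbb'
        have up : e'.2 i b' < pos (c i) ((b' : ℕ) + 1) := by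
          by_cases hL : (b' : ℕ) + 1 < L
          · have h1 := hfix (⟨(b' : ℕ) + 1, hL⟩, i) (by
              intro hc
              have := congrArg (fun u : Fin L × Fin L => (u.1 : ℕ)) hc
              simp only at this
              omega) (by
              intro hc
              have := congrArg (fun u : Fin L × Fin L => (u.1 : ℕ)) hc
              simp only at this
              omega)
            have h2 : e'.2 i b' < e'.2 i ⟨(b' : ℕ) + 1, hL⟩ := hV2 i (by rw [Fin.lt_def]; simp)
            rw [h1.2] at h2
            exact h2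
          · have h1 : (b' : ℕ) + 1 = L := by have := b'.2; omega
            have h2 := hV4 i b'
            unfold len at h2
            rw [h1]
            exact h2
        have hy' : pos (c i) (b' : ℕ) ≤ e'.2 i b := hy
        refine ⟨⟨?_, hx⟩, ⟨hx', ?_⟩, ?_, Finset.card_pair hyy.ne⟩
        · show pos (a b) (i : ℕ) - a b i.castSucc ≤ e'.1 b i
          rcases Nat.eq_zero_or_pos (i : ℕ) with h0 | h0
          · have h1 := (hPOS.1 L (a b)).1
            have h2 : i.castSucc = 0 := by
              apply Fin.ext
              simpa using h0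
            rw [h0, h1, h2]
            omega
          · have hj : (i : ℕ) - 1 < L := by have := i.2; omega
            have h1 := (hPOS.1 L (a b)).2.1 ⟨(i : ℕ) - 1, hj⟩
            have h2 : (⟨(i : ℕ) - 1, hj⟩ : Fin L).succ = i.castSucc := by
              apply Fin.ext
              simp
              omega
            have h3 : (i : ℕ) - 1 + 1 = (i : ℕ) := by omega
            simp only [h3] at h1
            rw [h2] at h1
            have h4 := hfix (b, ⟨(i : ℕ) - 1, hj⟩) (by
              intro hc
              have := congrArg (fun u : Fin L × Fin L => (u.2 : ℕ)) hc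
              simp only at this
              omega) (by
              intro hc
              have := congrArg (fun u : Fin L × Fin L => (u.2 : ℕ)) hc
              simp only at this
              omega)
            have h5 : e'.1 b ⟨(i : ℕ) - 1, hj⟩ < e'.1 b i := hV1 b (by rw [Fin.lt_def]; simp; omega)
            rw [h4.1] at h5
            have h6 : pos (a b) ((i : ℕ) - 1) < e'.1 b i := h5
            omega
        · show e'.1 b' i < pos (a b') ((i : ℕ) + 1)
          by_cases hL : (i : ℕ) + 1 < L
          · have h1 := hfix (b', ⟨(i : ℕ) + 1, hL⟩) (by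
              intro hc
              have := congrArg (fun u : Fin L × Fin L => (u.2 : ℕ)) hc
              simp only at this
              omega) (by
              intro hc
              have := congrArg (fun u : Fin L × Fin L => (u.2 : ℕ)) hc
              simp only at this
              omega)
            have h2 : e'.1 b' i < e'.1 b' ⟨(i : ℕ) + 1, hL⟩ := hV1 b' (by rw [Fin.lt_def]; simp)
            rw [h1.1] at h2
            exact h2
          · have h1 : (i : ℕ) + 1 = L := by have := i.2; omega
            have h2 := hV3 b' i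
            unfold len at h2
            rw [h1]
            exact h2
        · intro y hyin
          rw [Finset.mem_insert, Finset.mem_singleton] at hyin
          rw [Finset.mem_Ico]
          show pos (c i) (b' : ℕ) ≤ y ∧ y < pos (c i) ((b' : ℕ) + 1)
          rcases hyin with h | h
          · subst h; exact ⟨hy', hyy.trans up⟩
          · subst h; exact ⟨hy'.trans hyy.le, up⟩
      · have hyy : e'.2 i b < e'.2 i b' := hV2 i hbb'
        have h1 : sInf ((({e'.2 i b, e'.2 i b'} : Finset ℕ)) : Set ℕ) = e'.2 i b := by
          rw [Finset.coe_insert, Finset.coe_singleton, csInf_pair]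
          exact inf_eq_left.2 hyy.le
        have h2 : sSup ((({e'.2 i b, e'.2 i b'} : Finset ℕ)) : Set ℕ) = e'.2 i b' := by
          rw [Finset.coe_insert, Finset.coe_singleton, csSup_pair]
          exact sup_eq_right.2 hyy.le
        unfold B2N_f
        simp only [h1, h2]
        rw [hFe, hmov, Finset.image_insert, Finset.image_singleton]
        rfl
  calc ((Bad (len a) (len c) (arr a c)).filter fun F => F.card = 2).card
      ≤ ((VP L).biUnion fun q => (B2N_T a c q).image (B2N_f q)).card := Finset.card_le_card hsub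
    _ ≤ ∑ q ∈ VP L, ((B2N_T a c q).image (B2N_f q)).card := Finset.card_biUnion_le
    _ ≤ ∑ q ∈ VP L, n2 a c q :=
        Finset.sum_le_sum fun q _ => (Finset.card_image_le).trans (B2N_card hPOS a c q)

end

end Pool.Agent.DSW
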